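import Mathlib
import Pool.Agent.R25.Med.Emb

/-!
# MP_b747c0_co: a monolith which is not a convex subgraph of a product

`topeGraph` is the graph of the 32 regions of the simplicial arrangement `A(7,1)` of seven planes
in `ℝ³` (normals: the nonzero 0/1 vectors). It is a mediangle graph whose seven hyperplanes are
pairwise transverse, so the whole graph is a monolith; but it is not isomorphic to a convex
subgraph of any Cartesian product (with any index set) of complete graphs (of any size) and
Cayley graphs of finite Coxeter groups. All definitions are in `Pool/Agent/R25/Med/Defs.lean`,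
the graph is defined in `Pool/Agent/R25/Med/Arr.lean`.
-/

namespace Pool.Agent.Results.MP_b747c0_co.MonolithNotProduct

open Pool.Agent.R25.Med

theorem result.{u, v, w} :
    IsMediangle topeGraph ∧ IsMonolith topeGraph Set.univ ∧
    ∀ (ι : Type u) (P : ι → Type v) (G : ∀ i, SimpleGraph (P i)),
      (∀ i, G i = ⊤ ∨ IsFiniteCoxeterGraph.{v, w} (G i)) →
      ∀ S : Set (∀ i, P i), IsConvexSet (cartProd G) S →
        IsEmpty (topeGraph.induce Set.univ ≃g (cartProd G).induce S) :=
  ⟨topeGraph_mediangle, topeGraph_monolith, fun ι P G hG S hS => no_iso ι P G hG S hS⟩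

end Pool.Agent.Results.MP_b747c0_co.MonolithNotProduct
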